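import Mathlib
import Pool.Agent.W151.KW.Pol2

/-!
# Which correlations give polylogarithmic gaps? (helper151)

In Cramer's random model of the primes the events `n in S` have probability `1 / log n` and are
independent.  A *model of level* `K` is a random set in which `n` has probability `1 / log n` and only
correlations of bounded order are prescribed: any `K n` of the events with indices `≥ n` are
independent.

The level `log n / log log n` is the threshold for polylogarithmic gaps.  At level
`2 κ log n / log log n` every model has almost surely gaps at most `(log q) ^ (2 + 1 / κ + o(1))`, and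
the exponent `2 + 1 / κ` is attained by some model; at level `o(log n / log log n)` some model has
almost surely gaps that are larger than every power of the logarithm.
-/

set_option autoImplicit false

namespace Pool.Agent.Results.MP_711652_nt.CorrelationPolylog

open MeasureTheory Filter Topology
open Pool.Agent.W151.KW

theorem result :
    -- level at least `2 κ log n / log log n`: every exponent above `2 + 1 / κ`
    (∀ (Ω : Type) [MeasurableSpace Ω] (μ : Measure Ω) [IsProbabilityMeasure μ] (K : ℕ → ℕ)
      (A : ℕ → Set Ω) (κ : ℝ), 0 < κ →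
      (∀ᶠ n : ℕ in atTop, 2 * κ * (Real.log n / Real.log (Real.log n)) ≤ K n) → IsModel μ K A →
      ∀ᵐ ω ∂μ, {n | ω ∈ A n}.Infinite ∧
        gapOrder (fun q => Real.log (Real.log q)) {n | ω ∈ A n} ≤ ((2 + 1 / κ : ℝ) : EReal)) ∧
    -- the exponent `2 + 1 / κ` is attained
    (∀ κ : ℝ, 0 < κ →
      ∃ (Ω : Type) (_ : MeasurableSpace Ω) (μ : Measure Ω) (A : ℕ → Set Ω), IsProbabilityMeasure μ ∧
        IsModel μ (fun n => ⌈2 * κ * (Real.log n / Real.log (Real.log n))⌉₊) A ∧
        ∀ᵐ ω ∂μ, {n | ω ∈ A n}.Infinite ∧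
          gapOrder (fun q => Real.log (Real.log q)) {n | ω ∈ A n} = ((2 + 1 / κ : ℝ) : EReal)) ∧
    -- level `o(log n / log log n)`: no exponent
    (∀ K : ℕ → ℕ, Tendsto (fun n : ℕ => (K n : ℝ) * Real.log (Real.log n) / Real.log n) atTop (𝓝 0) →
      ∃ (Ω : Type) (_ : MeasurableSpace Ω) (μ : Measure Ω) (A : ℕ → Set Ω), IsProbabilityMeasure μ ∧
        IsModel μ K A ∧ ∀ᵐ ω ∂μ, {n | ω ∈ A n}.Infinite ∧
          gapOrder (fun q => Real.log (Real.log q)) {n | ω ∈ A n} = ⊤) := by
  refine ⟨?_, ?_, ?_⟩
  · intro Ω _ μ _ K A κ hκ hK hM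
    exact upper_pol hM hκ hK
  · intro κ hκ
    have h1 : ∀ T : ℕ, 0 < κ * (1 + 1 / ((T : ℝ) + 1)) := fun T => by positivity
    set κT : ℕ → ℝ := fun T => κ * (1 + 1 / ((T : ℝ) + 1)) with hκT
    set ηT : ℕ → ℝ := fun T => 1 / ((T : ℝ) + 2) with hηT
    set BT : ℕ → ℝ := fun T => 2 + (1 - ηT T) / κT T with hBT
    have hη1 : ∀ T : ℕ, ηT T < 1 := by
      intro T
      rw [hηT]
      simp only
      rw [div_lt_one (by positivity)]
      have : (0 : ℝ) ≤ T := Nat.cast_nonneg _
      linarith
    have hT : ∀ T, 0 < κT T ∧ 0 < ηT T ∧ 2 < BT T ∧ κT T * (BT T - 2) = 1 - ηT T := by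
      intro T
      have h2 := h1 T
      have h3 := hη1 T
      refine ⟨h2, by rw [hηT]; positivity, ?_, ?_⟩
      · rw [hBT]
        simp only
        have : 0 < (1 - ηT T) / κT T := div_pos (by linarith) h2
        linarith
      · rw [hBT]
        simp only
        have : κT T ≠ 0 := h2.ne'
        field_simp
        ring
    have hlog : ∀ c : ℝ, 0 < c → ∀ᶠ n : ℕ in atTop, 1 ≤ c * (Real.log n / Real.log (Real.log n)) := by
      intro c hc
      filter_upwards [ev_loglog hc, ev_loge 3] with n hn hn2
      have h3 : 0 < Real.log (Real.log n) := Real.log_pos (by linarith)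
      rw [← mul_div_assoc, le_div_iff₀ h3]
      linarith
    obtain ⟨μ, A, hμ, hM, hω⟩ := sup_pol (K := fun n => ⌈2 * κ * (Real.log n / Real.log (Real.log n))⌉₊)
      κT BT ηT hT (by
        intro T
        have h2 : 0 < κ * (1 / ((T : ℝ) + 1)) := by positivity
        refine level_scale _ (c := 2 * κ + κ * (1 / ((T : ℝ) + 1))) (by positivity) ?_ ?_
        · rw [hκT]
          simp only
          linarith
        · filter_upwards [hlog _ h2, ev_loge 3] with n hn hn2
          have h3 : 0 < Real.log (Real.log n) := Real.log_pos (by linarith)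
          have h4 : 0 ≤ 2 * κ * (Real.log n / Real.log (Real.log n)) := by
            have : 0 < Real.log n := by linarith
            positivity
          have h5 := (Nat.ceil_lt_add_one h4).le
          rw [add_mul]
          linarith) (by
        have h3 := (hlog κ hκ).exists
        obtain ⟨n, hn⟩ := h3
        refine ⟨n, ?_⟩
        have h4 := Nat.le_ceil (2 * κ * (Real.log n / Real.log (Real.log n)))
        have h5 : (2 : ℝ) ≤ (⌈2 * κ * (Real.log n / Real.log (Real.log n))⌉₊ : ℝ) := by linarith
        exact_mod_cast h5)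
    refine ⟨_, _, μ, A, hμ, hM, ?_⟩
    filter_upwards [hω, upper_pol hM hκ (Eventually.of_forall fun n => Nat.le_ceil _)] with ω h2 h3
    refine ⟨h2.1, le_antisymm h3.2 ?_⟩
    have hlim : Tendsto BT atTop (𝓝 (2 + 1 / κ)) := by
      have e1 : Tendsto ηT atTop (𝓝 0) := by
        have := (tendsto_one_div_add_atTop_nhds_zero_nat (𝕜 := ℝ)).comp (tendsto_add_atTop_nat 1)
        refine this.congr fun T => ?_
        simp only [Function.comp, hηT]
        push_cast
        ring
      have e2 : Tendsto κT atTop (𝓝 (κ * (1 + 0))) :=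
        (tendsto_const_nhds.add tendsto_one_div_add_atTop_nhds_zero_nat).const_mul κ
      rw [add_zero, mul_one] at e2
      have e3 := (tendsto_const_nhds (x := (1 : ℝ))).sub e1
      rw [sub_zero] at e3
      exact tendsto_const_nhds.add (e3.div e2 hκ.ne')
    refine le_of_forall_lt fun y hy => ?_
    obtain ⟨θ, hy', hθ⟩ := EReal.lt_iff_exists_real_btwn.1 hy
    rw [EReal.coe_lt_coe_iff] at hθ
    have hpos : 0 < 2 + 1 / κ := by positivity
    have h4 := h2.2 (max θ 0) (le_max_right _ _) (hlim.eventually_const_lt (max_lt hθ hpos))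
    refine lt_of_lt_of_le hy' (le_trans ?_ h4)
    rw [EReal.coe_le_coe_iff]
    exact le_max_left _ _
  · intro K hK
    set K' : ℕ → ℕ := fun n => max (K n) 2 with hK'
    set κT : ℕ → ℝ := fun T => 1 / ((T : ℝ) + 1) with hκT
    set ηT : ℕ → ℝ := fun T => 1 / ((T : ℝ) + 2) with hηT
    set BT : ℕ → ℝ := fun T => 2 + (1 - ηT T) / κT T with hBT
    have h1 : ∀ T : ℕ, 0 < κT T := fun T => by rw [hκT]; positivity
    have hη1 : ∀ T : ℕ, ηT T ≤ 1 / 2 := by
      intro T
      rw [hηT]
      exact one_div_le_one_div_of_le (by norm_num) (by linarith [(Nat.cast_nonneg T : (0 : ℝ) ≤ T)])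
    have hT : ∀ T, 0 < κT T ∧ 0 < ηT T ∧ 2 < BT T ∧ κT T * (BT T - 2) = 1 - ηT T := by
      intro T
      have h2 := h1 T
      have h3 := hη1 T
      refine ⟨h2, by rw [hηT]; positivity, ?_, ?_⟩
      · rw [hBT]
        simp only
        have : 0 < (1 - ηT T) / κT T := div_pos (by linarith) h2
        linarith
      · rw [hBT]
        simp only
        have : κT T ≠ 0 := h2.ne'
        field_simp
        ring
    have hsmall : ∀ c : ℝ, 0 < c → ∀ᶠ n : ℕ in atTop, (K' n : ℝ) ≤ c * (Real.log n / Real.log (Real.log n)) := by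
      intro c hc
      filter_upwards [hK.eventually_le_const hc, ev_loglog (ε := c / 2) (by positivity), ev_loge 3] with
        n hn hn2 hn3
      have h3 : 0 < Real.log (Real.log n) := Real.log_pos (by linarith)
      have h4 : 0 < Real.log n := by linarith
      rw [div_le_iff₀ h4] at hn
      rw [hK']
      push_cast
      rw [← mul_div_assoc, le_div_iff₀ h3]
      rcases le_total (K n : ℝ) 2 with h | h
      · rw [max_eq_right h]; linarith
      · rw [max_eq_left h]; linarith
    obtain ⟨μ, A, hμ, hM, hω⟩ := sup_pol (K := K') κT BT ηT hT (by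
        intro T
        have h2 := h1 T
        exact level_scale _ (c := κT T) h2.le (by linarith) (hsmall _ h2))
      ⟨0, le_max_right _ _⟩
    refine ⟨_, _, μ, A, hμ, hM.mono fun n => le_max_left _ _, ?_⟩
    filter_upwards [hω] with ω h2
    refine ⟨h2.1, ?_⟩
    rw [EReal.eq_top_iff_forall_lt]
    intro y
    have hBlim : ∀ c : ℝ, ∀ᶠ T in atTop, c < BT T := by
      intro c
      filter_upwards [(tendsto_natCast_atTop_atTop (R := ℝ)).eventually_ge_atTop (2 * |c|)] with T hT2
      have h3 := hη1 T
      rw [hBT]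
      simp only
      have h4 : (1 - ηT T) / κT T = (1 - ηT T) * ((T : ℝ) + 1) := by rw [hκT]; field_simp
      rw [h4]
      have h5 : 1 / 2 * ((T : ℝ) + 1) ≤ (1 - ηT T) * ((T : ℝ) + 1) := by
        apply mul_le_mul_of_nonneg_right _ (by positivity)
        linarith
      linarith [le_abs_self c]
    refine lt_of_lt_of_le ?_ (h2.2 (max (y + 1) 0) (le_max_right _ _) (hBlim _))
    rw [EReal.coe_lt_coe_iff]
    exact lt_of_lt_of_le (by linarith) (le_max_left _ _)

end Pool.Agent.Results.MP_711652_nt.CorrelationPolylog
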