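import Pool.Agent.W154.PV.Main

set_option autoImplicit false

/-! # Simultaneous record gaps around all the numbers `a n ^ d`, `1 ≤ a, d ≤ D`

For every `D` there is `c > 0` such that for all large `Y` every interval `(M, M + Y]`, `M ≥ Y`,
contains an integer `n` such that no prime lies within `c log Y (log₂ Y)² log₄ Y / (log₃ Y)²` of any
of the numbers `a n ^ d` with `1 ≤ a, d ≤ D`.

Method: the covering sieve of helper426's team (colour dependent densities) is run for all the
colours `(a, d, k)`, standing for `a n ^ d + k`, at once.  New are: the bound for the number of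
shifts `k` for which `a x ^ d + k` has too few roots modulo the primes of the sieving range (large
sieve for the characters of order dividing `d` of the prime moduli, amplified by taking powers, for
the `k` with a large prime factor), the disjointness of the hits of colours with different
exponents (the shifts which are perfect powers are removed by hand), and the existence of many
primes for which a given `a x ^ d + k` has a root. -/

namespace Pool.Agent.Results.MP_711652_nt.PowerValues

theorem result (D : ℕ) : ∃ c : ℝ, 0 < c ∧ ∃ Y₀ : ℝ, ∀ Y : ℝ, Y₀ ≤ Y →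
    ∀ M : ℕ, Y ≤ (M : ℝ) → ∃ n : ℕ, M < n ∧ (n : ℝ) ≤ M + Y ∧
      ∀ a d : ℕ, 1 ≤ a → a ≤ D → 1 ≤ d → d ≤ D → ∀ q : ℕ, q.Prime →
        c * (Real.log Y * (Real.log (Real.log Y)) ^ 2 *
          Real.log (Real.log (Real.log (Real.log Y))) /
            (Real.log (Real.log (Real.log Y))) ^ 2) < |(q : ℝ) - (a : ℝ) * (n : ℝ) ^ d| := by
  obtain ⟨c, hc, Y₀, h⟩ := Pool.Agent.W154.PV.pow_main (D + 1) (Nat.succ_pos D)
  refine ⟨c, hc, Y₀, fun Y hY M hM => ?_⟩
  obtain ⟨n, h1, h2, h3⟩ := h Y hY M hM
  exact ⟨n, h1, h2, fun a d ha haD hd hdD q hq => h3 a d ha (by omega) hd (by omega) q hq⟩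

end Pool.Agent.Results.MP_711652_nt.PowerValues
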