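import Mathlib
import Pool.Agent.W301.SS.Out1

/-!
A quarter of the points of almost every translate of every set of density `(log N)^(-C)` lies
within a power of `log N` before a prime, and before the expected order of primes.

Method: Vinogradov's estimate for the exponential sum over primes near `0` and Parseval's identity
(first moment over the points of a sumset); the variance of Selberg's upper bound function over
short intervals is smaller than any power of the logarithm, so that almost all points of every
sufficiently dense set have at most the expected upper bound (constant `4`).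
-/

set_option autoImplicit false

/-- For all `0 < ε ≤ 1/4` and `C` there is `K` such that for all `N ≥ K` and every set `A` of at
least `N / (log N)^C` integers in `[1, N]` the following holds for all integers `b ∈ [1, N]` outside
a set of at most `N / (log N)^C` exceptions, and all real `y` with `(log N)^K ≤ y ≤ N`: at least
`(1/4 - ε) |A|` of the points `x = a + b`, `a ∈ A`, have at least `(ε / 2) y / log N` primes in
`(x, x + y]`. -/
theorem Pool.Agent.Results.MP_711652_nt.QuarterOfTranslates.result (ε : ℝ) (hε : 0 < ε)
    (hε1 : ε ≤ 1 / 4) (C : ℕ) :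
    ∃ K : ℕ, ∀ N : ℕ, K ≤ N → ∀ A : Finset ℕ, A ⊆ Finset.Icc 1 N →
      (N : ℝ) / Real.log N ^ C ≤ A.card →
      ∃ E : Finset ℕ, E ⊆ Finset.Icc 1 N ∧ (E.card : ℝ) ≤ (N : ℝ) / Real.log N ^ C ∧
        ∀ b ∈ Finset.Icc 1 N, b ∉ E → ∀ y : ℝ, Real.log N ^ K ≤ y → y ≤ N →
          (1 / 4 - ε) * A.card ≤ (Set.ncard {a : ℕ | a ∈ A ∧ ε / 2 * (y / Real.log N) ≤
            (Nat.primeCounting ⌊((a + b : ℕ) : ℝ) + y⌋₊ : ℝ) - Nat.primeCounting (a + b)} : ℝ) :=
  Pool.Agent.W301.SS.polyGaps ε hε hε1 C
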